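import Pool.Agent.J6H60.FV.Stm
import Pool.Agent.W762.FV.GI

/-!
# Project FV: second order Gaussian integration by parts for Lipschitz functions
-/

set_option autoImplicit false

open MeasureTheory Filter Topology

namespace Pool.Agent.J6H57.FV

open Pool.Agent.W716.FV Pool.Agent.J6H60.FV Pool.Agent.W762.FV

theorem dom3 (a b c d k r : ℝ) (ha : 0 ≤ a) (hb : 0 ≤ b) (hc : 0 ≤ c) (hd : 0 ≤ d) (hk : 0 ≤ k) :
    (a + b * r) * (c * r ^ 2 + d * r + k) * Real.exp (-r ^ 2 / 4) ≤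
      (128 * ((a + b) * (c + d + k))) * Real.exp (-r ^ 2 / 8) := by
  have e1 : Real.exp (-r ^ 2 / 8) = Real.exp (r ^ 2 / 8) * Real.exp (-r ^ 2 / 4) := by
    rw [← Real.exp_add]
    ring_nf
  rw [e1, ← mul_assoc]
  refine mul_le_mul_of_nonneg_right ?_ (Real.exp_pos _).le
  set e := Real.exp (r ^ 2 / 8) with he
  have h1 : 1 ≤ e := Real.one_le_exp (by positivity)
  have h2 := Real.quadratic_le_exp_of_nonneg (x := r ^ 2 / 8) (by positivity)
  rw [← he] at h2
  have q1 : 1 ≤ 128 * e := by linarith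
  have q2 : r ^ 2 ≤ 128 * e := by nlinarith [sq_nonneg (r ^ 2)]
  have q3 : r ≤ 128 * e := by nlinarith [sq_nonneg (r - 1), sq_nonneg (r ^ 2)]
  have q4 : r ^ 3 ≤ 128 * e := by
    have h3 : r ^ 4 ≤ 128 * e - 128 - 16 * r ^ 2 := by nlinarith [sq_nonneg (r ^ 2)]
    nlinarith [sq_nonneg (r ^ 2 - r), sq_nonneg r]
  have g0 : a * k * 1 ≤ a * k * (128 * e) := mul_le_mul_of_nonneg_left q1 (by positivity)
  have g1 : (a * d + b * k) * r ≤ (a * d + b * k) * (128 * e) :=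
    mul_le_mul_of_nonneg_left q3 (by positivity)
  have g2 : (a * c + b * d) * r ^ 2 ≤ (a * c + b * d) * (128 * e) :=
    mul_le_mul_of_nonneg_left q2 (by positivity)
  have g3 : b * c * r ^ 3 ≤ b * c * (128 * e) := mul_le_mul_of_nonneg_left q4 (by positivity)
  have h4 : (a + b * r) * (c * r ^ 2 + d * r + k) =
      a * k * 1 + (a * d + b * k) * r + (a * c + b * d) * r ^ 2 + b * c * r ^ 3 := by ring
  rw [h4]
  have h5 : 128 * ((a + b) * (c + d + k)) * e = a * k * (128 * e) + (a * d + b * k) * (128 * e) +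
      (a * c + b * d) * (128 * e) + b * c * (128 * e) := by ring
  rw [h5]
  linarith

/-- `h(x) = ⟨x, v⟩ gd x` -/
noncomputable def hh {n : ℕ} (v x : E n) : ℝ := inner ℝ x v * gd n x

theorem hh_cont {n : ℕ} (v : E n) : Continuous (hh v) := by
  unfold hh
  exact Continuous.mul (by fun_prop) (gd_cont n)

theorem hh_shift {n : ℕ} (v x : E n) (t : ℝ) :
    hh v (x - t • v) = (inner ℝ x v - t * ‖v‖ ^ 2) * gd n (x - t • v) := by
  unfold hh
  rw [inner_sub_left, real_inner_smul_left, real_inner_self_eq_norm_sq]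

theorem hh_deriv {n : ℕ} (v x : E n) (t : ℝ) :
    HasDerivAt (fun t : ℝ => hh v (x - t • v))
      (((inner ℝ x v - t * ‖v‖ ^ 2) ^ 2 - ‖v‖ ^ 2) * gd n (x - t • v)) t := by
  have e : (fun t : ℝ => hh v (x - t • v)) = fun t : ℝ =>
      (inner ℝ x v - t * ‖v‖ ^ 2) * gd n (x - t • v) := by
    funext t
    rw [hh_shift]
  rw [e]
  have h1 : HasDerivAt (fun t : ℝ => (inner ℝ x v - t * ‖v‖ ^ 2)) (-‖v‖ ^ 2) t := by
    have h := ((hasDerivAt_id t).mul_const (‖v‖ ^ 2)).const_sub (inner ℝ x v)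
    refine h.congr_deriv ?_
    ring
  refine (h1.mul (gd_deriv x v t)).congr_deriv ?_
  ring

theorem inner_bd {n : ℕ} (v x : E n) {t : ℝ} (ht : |t| ≤ 1) :
    |inner ℝ x v - t * ‖v‖ ^ 2| ≤ ‖v‖ * ‖x‖ + ‖v‖ ^ 2 := by
  calc |inner ℝ x v - t * ‖v‖ ^ 2| ≤ |inner ℝ x v| + |t * ‖v‖ ^ 2| := abs_sub _ _
    _ ≤ ‖x‖ * ‖v‖ + 1 * ‖v‖ ^ 2 := by
      refine add_le_add (abs_real_inner_le_norm x v) ?_
      rw [abs_mul, abs_of_nonneg (sq_nonneg ‖v‖)]
      exact mul_le_mul_of_nonneg_right ht (sq_nonneg _)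
    _ = _ := by ring

theorem inner_bd2 {n : ℕ} (v x : E n) {t : ℝ} (ht : |t| ≤ 1) :
    |(inner ℝ x v - t * ‖v‖ ^ 2) ^ 2 - ‖v‖ ^ 2| ≤
      ‖v‖ ^ 2 * ‖x‖ ^ 2 + 2 * ‖v‖ ^ 3 * ‖x‖ + (‖v‖ ^ 4 + ‖v‖ ^ 2) := by
  have h := inner_bd v x ht
  have h0 : 0 ≤ |inner ℝ x v - t * ‖v‖ ^ 2| := abs_nonneg _
  have h1 : (inner ℝ x v - t * ‖v‖ ^ 2) ^ 2 ≤ (‖v‖ * ‖x‖ + ‖v‖ ^ 2) ^ 2 := by
    rw [← sq_abs (inner ℝ x v - t * ‖v‖ ^ 2)]
    exact pow_le_pow_left₀ h0 h 2
  calc |(inner ℝ x v - t * ‖v‖ ^ 2) ^ 2 - ‖v‖ ^ 2|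
      ≤ |(inner ℝ x v - t * ‖v‖ ^ 2) ^ 2| + |‖v‖ ^ 2| := abs_sub _ _
    _ = (inner ℝ x v - t * ‖v‖ ^ 2) ^ 2 + ‖v‖ ^ 2 := by
      rw [abs_of_nonneg (sq_nonneg (inner ℝ x v - t * ‖v‖ ^ 2)), abs_of_nonneg (sq_nonneg ‖v‖)]
    _ ≤ (‖v‖ * ‖x‖ + ‖v‖ ^ 2) ^ 2 + ‖v‖ ^ 2 := by linarith
    _ = _ := by ring

theorem main : GaussIBP2 := by
  intro n F L hL v
  set b : ℝ := max L 0 with hb
  have hb0 : 0 ≤ b := le_max_right _ _
  have hlip : LipschitzWith (Real.toNNReal L) F := LipschitzWith.of_dist_le' fun x y => by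
    rw [Real.dist_eq, dist_eq_norm]
    exact hL x y
  have hFc : Continuous F := hlip.continuous
  set a : ℝ := |F 0| with ha
  have ha0 : 0 ≤ a := abs_nonneg _
  have hF : ∀ x, |F x| ≤ a + b * ‖x‖ := by
    intro x
    have h1 := hL x 0
    rw [sub_zero] at h1
    have h2 : L * ‖x‖ ≤ b * ‖x‖ := mul_le_mul_of_nonneg_right (le_max_left _ _) (norm_nonneg _)
    calc |F x| = |F 0 + (F x - F 0)| := by ring_nf
      _ ≤ |F 0| + |F x - F 0| := abs_add_le _ _
      _ ≤ _ := by linarith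
  set K : ℝ := cc n * Real.exp (‖v‖ ^ 2 / 2) with hK
  have hK0 : 0 ≤ K := mul_nonneg (cc_pos n).le (Real.exp_pos _).le
  -- a general integrability statement
  have key : ∀ (G : E n → ℝ) (w : E n → ℝ) (t : ℝ) (a' b' c d k : ℝ), |t| ≤ 1 → 0 ≤ a' → 0 ≤ b' →
      0 ≤ c → 0 ≤ d → 0 ≤ k → (∀ x, |G x| ≤ a' + b' * ‖x‖) →
      (∀ x, |w x| ≤ c * ‖x‖ ^ 2 + d * ‖x‖ + k) → ∀ x,
      ‖G x * (w x * gd n (x - t • v))‖ ≤
        (K * (128 * ((a' + b') * (c + d + k)))) * Real.exp (-‖x‖ ^ 2 / 8) := by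
    intro G w t a' b' c d k ht ha' hb' hc hd hk hG hw x
    have h1 := dom3 a' b' c d k ‖x‖ ha' hb' hc hd hk
    rw [Real.norm_eq_abs, abs_mul, abs_mul, abs_of_nonneg (gd_nonneg _ _)]
    calc |G x| * (|w x| * gd n (x - t • v))
        ≤ (a' + b' * ‖x‖) * ((c * ‖x‖ ^ 2 + d * ‖x‖ + k) * (K * Real.exp (-‖x‖ ^ 2 / 4))) := by
          refine mul_le_mul (hG x) (mul_le_mul (hw x) (gd_shift x v ht) (gd_nonneg _ _)
            (by positivity)) (mul_nonneg (abs_nonneg _) (gd_nonneg _ _)) (by positivity)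
      _ = K * ((a' + b' * ‖x‖) * (c * ‖x‖ ^ 2 + d * ‖x‖ + k) * Real.exp (-‖x‖ ^ 2 / 4)) := by ring
      _ ≤ K * ((128 * ((a' + b') * (c + d + k))) * Real.exp (-‖x‖ ^ 2 / 8)) :=
          mul_le_mul_of_nonneg_left h1 hK0
      _ = _ := by ring
  -- integrability
  have hint : ∀ t : ℝ, |t| ≤ 1 → Integrable (fun x : E n => F x * hh v (x - t • v)) := by
    intro t ht
    refine Integrable.mono' ((int_gauss n).const_mul
      (K * (128 * ((a + b) * (0 + ‖v‖ + ‖v‖ ^ 2))))) ?_ (Filter.Eventually.of_forall fun x => ?_)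
    · exact (hFc.mul ((hh_cont v).comp (by fun_prop))).aestronglyMeasurable
    · rw [hh_shift]
      refine key F (fun x => inner ℝ x v - t * ‖v‖ ^ 2) t a b 0 ‖v‖ (‖v‖ ^ 2) ht ha0 hb0 le_rfl
        (norm_nonneg _) (by positivity) hF (fun x => ?_) x
      have := inner_bd v x ht
      linarith
  have hgi : Integrable (hh v) := by
    refine Integrable.mono' ((int_gauss n).const_mul
      (K * (128 * ((1 + 0) * (0 + ‖v‖ + ‖v‖ ^ 2))))) (hh_cont v).aestronglyMeasurable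
      (Filter.Eventually.of_forall fun x => ?_)
    have h := key (fun _ => 1) (fun x => inner ℝ x v - 0 * ‖v‖ ^ 2) 0 1 0 0 ‖v‖ (‖v‖ ^ 2)
      (by simp) zero_le_one le_rfl le_rfl (norm_nonneg _) (by positivity) (fun x => by simp)
      (fun x => by
        have := inner_bd v x (t := 0) (by simp)
        linarith) x
    have e : hh v x = 1 * ((inner ℝ x v - 0 * ‖v‖ ^ 2) * gd n (x - (0 : ℝ) • v)) := by
      unfold hh
      rw [zero_smul, sub_zero, zero_mul, sub_zero, one_mul]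
    rw [e]
    exact h
  -- the derivative of the right side
  have hder := (hasDerivAt_integral_of_dominated_loc_of_deriv_le (μ := (volume : Measure (E n)))
    (F := fun (t : ℝ) (x : E n) => F x * hh v (x - t • v))
    (F' := fun (t : ℝ) (x : E n) =>
      F x * (((inner ℝ x v - t * ‖v‖ ^ 2) ^ 2 - ‖v‖ ^ 2) * gd n (x - t • v)))
    (x₀ := (0 : ℝ)) (s := Metric.closedBall 0 1)
    (bound := fun x => (K * (128 * ((a + b) * (‖v‖ ^ 2 + 2 * ‖v‖ ^ 3 + (‖v‖ ^ 4 + ‖v‖ ^ 2))))) *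
      Real.exp (-‖x‖ ^ 2 / 8))
    (Metric.closedBall_mem_nhds _ one_pos) (Filter.Eventually.of_forall fun t =>
      (hFc.mul ((hh_cont v).comp (by fun_prop))).aestronglyMeasurable)
    (hint 0 (by simp)) (by
      refine (hFc.mul (Continuous.mul ?_ ((gd_cont n).comp (by fun_prop)))).aestronglyMeasurable
      fun_prop)
    (Filter.Eventually.of_forall fun x t ht => by
      have ht' : |t| ≤ 1 := by
        rw [Metric.mem_closedBall, Real.dist_eq, sub_zero] at ht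
        exact ht
      exact key F (fun x => (inner ℝ x v - t * ‖v‖ ^ 2) ^ 2 - ‖v‖ ^ 2) t a b (‖v‖ ^ 2)
        (2 * ‖v‖ ^ 3) (‖v‖ ^ 4 + ‖v‖ ^ 2) ht' ha0 hb0 (by positivity) (by positivity)
        (by positivity) hF (fun x => inner_bd2 v x ht') x)
    ((int_gauss n).const_mul _)
    (Filter.Eventually.of_forall fun x t _ => (hh_deriv v x t).const_mul (F x))).2
  have ht1 := hder.tendsto_slope_zero_right
  have ht2 := hlip.integral_inv_smul_sub_mul_tendsto_integral_lineDeriv_mul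
    (μ := (volume : Measure (E n))) hgi v
  have heq : ∀ t : ℝ, |t| ≤ 1 →
      ∫ x : E n, (t⁻¹ • (F (x + t • v) - F x)) * hh v x =
      t⁻¹ • ((∫ x : E n, F x * hh v (x - (0 + t) • v)) -
        ∫ x : E n, F x * hh v (x - (0 : ℝ) • v)) := by
    intro t ht
    have s1 : ∫ x : E n, F x * hh v (x - (0 + t) • v) = ∫ x : E n, F (x + t • v) * hh v x := by
      rw [← integral_add_right_eq_self (fun x : E n => F x * hh v (x - (0 + t) • v)) (t • v)]
      refine integral_congr_ae (Filter.Eventually.of_forall fun x => ?_)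
      simp only [zero_add, add_sub_cancel_right]
    have i1 : Integrable (fun x : E n => F (x + t • v) * hh v x) := by
      have h1 := (hint t ht).comp_add_right (t • v)
      refine h1.congr (Filter.Eventually.of_forall fun x => ?_)
      simp only [add_sub_cancel_right]
    have i2 : Integrable (fun x : E n => F x * hh v (x - (0 : ℝ) • v)) := hint 0 (by simp)
    rw [s1, ← integral_sub i1 i2, ← integral_smul]
    refine integral_congr_ae (Filter.Eventually.of_forall fun x => ?_)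
    simp only [smul_eq_mul, zero_smul, sub_zero]
    ring
  have hev : (fun t : ℝ => ∫ x : E n, (t⁻¹ • (F (x + t • v) - F x)) * hh v x) =ᶠ[𝓝[>] 0]
      fun t : ℝ => t⁻¹ • ((∫ x : E n, F x * hh v (x - (0 + t) • v)) -
        ∫ x : E n, F x * hh v (x - (0 : ℝ) • v)) := by
    have h1 : ∀ᶠ t : ℝ in 𝓝[>] 0, t ∈ Set.Ioo (0 : ℝ) 1 := Ioo_mem_nhdsGT one_pos
    filter_upwards [h1] with t ht
    exact heq t (by rw [abs_of_pos ht.1]; exact ht.2.le)
  have hlim := tendsto_nhds_unique (ht2.congr' hev) ht1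
  -- back to the Gaussian measure
  have hwd : ∀ f : E n → ℝ, ∫ x, f x ∂(gam n) = ∫ x, gd n x * f x := by
    intro f
    unfold gam
    rw [integral_withDensity_eq_integral_toReal_smul
      ((gd_cont n).measurable.ennreal_ofReal) (Filter.Eventually.of_forall fun x =>
        ENNReal.ofReal_lt_top)]
    refine integral_congr_ae (Filter.Eventually.of_forall fun x => ?_)
    simp only [smul_eq_mul, ENNReal.toReal_ofReal (gd_nonneg n x)]
  rw [hwd, hwd]
  have r1 : ∫ x : E n, gd n x * (F x * ((inner ℝ x v) ^ 2 - ‖v‖ ^ 2)) =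
      ∫ x : E n, F x * (((inner ℝ x v - (0 : ℝ) * ‖v‖ ^ 2) ^ 2 - ‖v‖ ^ 2) *
        gd n (x - (0 : ℝ) • v)) := by
    refine integral_congr_ae (Filter.Eventually.of_forall fun x => ?_)
    simp only [zero_mul, sub_zero, zero_smul]
    ring
  have r2 : ∫ x : E n, gd n x * (fderiv ℝ F x v * inner ℝ x v) =
      ∫ x : E n, lineDeriv ℝ F x v * hh v x := by
    refine integral_congr_ae ?_
    filter_upwards [hlip.ae_differentiableAt (μ := (volume : Measure (E n)))] with x hx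
    rw [hx.lineDeriv_eq_fderiv]
    unfold hh
    ring
  rw [r1, r2]
  exact hlim.symm

end Pool.Agent.J6H57.FV
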